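import Pool.Agent.Y592.CW.Mem
import Pool.Agent.H596R2.Sigma2Coll

/-!
# CHAIN MINOR stays `Σ₂ᵖ`-complete for series-parallel posets, the first of width at most four
-/

namespace Pool.Agent.Results.MP_292d26_lc.NarrowSeriesParallel

open Pool.Agent.H596R2 Pool.Agent.NPC Pool.Agent.NPC.S2 Pool.Agent.NPC.CW592

/-- CHAIN MINOR restricted to series-parallel posets `P`, `Q` with `P` of width at most four is in
`Σ₂ᵖ`, it is `Σ₂ᵖ`-hard under polynomial-time many-one reductions, and consequently it is in `NP`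
if and only if `NP = coNP`. -/
theorem result : InSigma2P ChainMinorNarrow ∧ Sigma2HardP ChainMinorNarrow ∧
    (InNPP ChainMinorNarrow ↔ ∀ L : Set (List Bool), InNP L ↔ InNP Lᶜ) :=
  ⟨inSigma2P_narrow, hardS2_narrow.toSigma2HardP,
    sigma2Complete_inNP_iff inSigma2P_narrow hardS2_narrow.toSigma2HardP⟩

end Pool.Agent.Results.MP_292d26_lc.NarrowSeriesParallel
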